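import Pool.Agent.MWBN.Stmts

/-!
# Row DBN: all letters can be raised to the power `n + 1`
-/

namespace Pool.Agent.MWBN.H74

open Pool.Agent.Helper14_MV Pool.Agent.Helper2_MV Pool.Agent.MVO Pool.Agent.MWL
open Pool.Agent.MWS Pool.Agent.MWBN

/-- raise all letters of a word to the power `n + 1` -/
def up (n : ℕ) (l : List ℕ) : List ℕ := l.flatMap (fun c => List.replicate (n + 1) c)

theorem up_cons (n c : ℕ) (l : List ℕ) : up n (c :: l) = List.replicate (n + 1) c ++ up n l := rfl

theorem count_up (n : ℕ) (l : List ℕ) (c : ℕ) :
    (up n l).count c = (n + 1) * l.count c := by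
  induction l with
  | nil => rfl
  | cons a l ih =>
    rw [up_cons, List.count_append, ih, List.count_replicate]
    by_cases h : a = c
    · subst h
      rw [List.count_cons_self]
      simp
      ring
    · rw [List.count_cons_of_ne h]
      have h1 : (a == c) = false := by simpa using h
      simp [h1]

theorem mem_up (n : ℕ) (l : List ℕ) (c : ℕ) : c ∈ up n l ↔ c ∈ l := by
  simp [up, List.mem_flatMap]

theorem bef_nil (x y : ℕ) : Bef [] x y := by
  intro P Q h
  have := congrArg List.length h
  simp at this

theorem bef_cons (c : ℕ) (l : List ℕ) (x y : ℕ) :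
    Bef (c :: l) x y ↔ (c = y → x ∉ l) ∧ Bef l x y := by
  constructor
  · intro h
    refine ⟨fun hc => ?_, fun P Q hl => ?_⟩
    · subst hc
      exact h [] l rfl
    · exact h (c :: P) Q (by rw [hl]; rfl)
  · rintro ⟨h1, h2⟩ P Q hl
    cases P with
    | nil =>
      rw [List.nil_append, List.cons.injEq] at hl
      rw [← hl.2]
      exact h1 hl.1
    | cons p P =>
      rw [List.cons_append, List.cons.injEq] at hl
      exact h2 P Q hl.2

theorem bef_rep (c : ℕ) (l : List ℕ) {x y : ℕ} (hxy : x ≠ y) (n : ℕ) :
    Bef (List.replicate (n + 1) c ++ l) x y ↔ (c = y → x ∉ l) ∧ Bef l x y := by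
  induction n with
  | zero => exact bef_cons c l x y
  | succ n ih =>
    have e : List.replicate (n + 1 + 1) c ++ l = c :: (List.replicate (n + 1) c ++ l) := rfl
    rw [e, bef_cons, ih]
    constructor
    · rintro ⟨_, h⟩
      exact h
    · rintro ⟨h2, h3⟩
      refine ⟨fun hc hx => ?_, h2, h3⟩
      rcases List.mem_append.1 hx with h | h
      · exact hxy ((List.eq_of_mem_replicate h).trans hc)
      · exact h2 hc h

theorem bef_up (n : ℕ) (l : List ℕ) {x y : ℕ} (hxy : x ≠ y) :
    Bef (up n l) x y ↔ Bef l x y := by
  induction l with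
  | nil => exact Iff.rfl
  | cons c l ih =>
    rw [up_cons, bef_rep c (up n l) hxy n, bef_cons, ih, mem_up]

/-- one block in a fixed context -/
theorem up_block (h2 : IdnStmt) {n : ℕ} {β : FIC} (hβ : ClXn n β) (q : List ℕ) :
    ∀ (l p : List ℕ), (∀ c ∈ l, 2 ≤ (p ++ (l ++ q)).count c) →
      RR β (p ++ (l ++ q)) (p ++ (up n l ++ q)) := by
  intro l
  induction l with
  | nil => intro p _; exact RR.refl _
  | cons c l ih =>
    intro p hc
    rw [up_cons]
    have hcc := hc c (List.mem_cons_self)
    have hm : c ∈ p ∨ c ∈ l ++ q := by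
      by_contra hcon
      rw [not_or] at hcon
      have e1 : (p ++ ((c :: l) ++ q)).count c = p.count c + ((l ++ q).count c + 1) := by
        rw [List.count_append, List.cons_append, List.count_cons_self]
      rw [e1, List.count_eq_zero_of_not_mem hcon.1, List.count_eq_zero_of_not_mem hcon.2] at hcc
      omega
    have s1 : RR β (p ++ c :: (l ++ q)) (p ++ (List.replicate (n * 1 + 1) c ++ (l ++ q))) :=
      h2 n β hβ.pos hβ.ap hβ.be p (l ++ q) c hm 1
    rw [mul_one] at s1
    have s2 := ih (p ++ List.replicate (n + 1) c) (fun d hd => by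
      have h3 := hc d (List.mem_cons_of_mem _ hd)
      have e2 : (p ++ ((c :: l) ++ q)).count d ≤
          (p ++ List.replicate (n + 1) c ++ (l ++ q)).count d := by
        rw [List.append_assoc, List.cons_append, List.count_append, List.count_append,
          List.count_append, List.count_replicate, List.count_cons]
        by_cases h : c = d
        · subst h
          simp
        · have h1 : (c == d) = false := by simpa using h
          simp [h1]
      exact h3.trans e2)
    have e3 : p ++ (List.replicate (n + 1) c ++ (l ++ q)) =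
        p ++ List.replicate (n + 1) c ++ (l ++ q) := by
      simp
    have e4 : p ++ List.replicate (n + 1) c ++ (up n l ++ q) =
        p ++ (List.replicate (n + 1) c ++ up n l ++ q) := by
      simp
    rw [e3] at s1
    rw [e4] at s2
    exact β.trans s1 s2

/-- **DBN** -/
theorem dbn (h1 : MWS.BlrStmt) (h2 : IdnStmt) : DbnStmt := by
  intro n β hβ k B hB
  change RR β (asm k B) (asm k (fun j => up n (B j))) ∧ OkB k (fun j => up n (B j)) ∧
    (∀ j c, (up n (B j)).count c = (n + 1) * (B j).count c) ∧
    ∀ j x y, x ≠ y → (Bef (up n (B j)) x y ↔ Bef (B j) x y)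
  refine ⟨?_, ⟨?_, ?_⟩, ?_, ?_⟩
  · apply h1 β k B (fun j => up n (B j))
    intro m hm
    set C : ℕ → List ℕ := fun j => if j < m then up n (B j) else B j
      with hC
    have hCm : C m = B m := by simp [hC]
    have e1 : asm k C = pre C m ++ (B m ++ suf C m (k - m)) := by
      rw [asm_split hm, hCm, List.append_assoc]
    have e2 : asm k (fun j => if j < m + 1 then up n (B j) else B j) =
        pre C m ++ (up n (B m) ++ suf C m (k - m)) := by
      rw [asm_split hm]
      have e3 : pre (fun j => if j < m + 1 then up n (B j) else B j) m =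
          pre C m := pre_congr (fun j hj => by
        simp only [hC]
        rw [if_pos (by omega), if_pos hj])
      have e4 : suf (fun j => if j < m + 1 then up n (B j) else B j) m
          (k - m) = suf C m (k - m) := suf_congr (fun j hj _ => by
        simp only [hC]
        rw [if_neg (by omega), if_neg (by omega)])
      rw [e3, e4, if_pos (Nat.lt_succ_self m), List.append_assoc]
    rw [e2, e1]
    apply up_block h2 hβ
    intro c hc
    rw [← e1, count_asm (hB.ok m hm c hc)]
    have h3 := hB.ml m hm c hc
    refine le_trans h3 ?_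
    unfold deg
    apply Finset.sum_le_sum
    intro j _
    simp only [hC]
    by_cases hj : j < m
    · rw [if_pos hj, count_up]
      exact Nat.le_mul_of_pos_left _ (Nat.succ_pos n)
    · rw [if_neg hj]
  · intro j hj c hc
    exact hB.ok j hj c ((mem_up n _ _).1 hc)
  · intro j hj c hc
    have h3 := hB.ml j hj c ((mem_up n _ _).1 hc)
    refine le_trans h3 ?_
    unfold deg
    apply Finset.sum_le_sum
    intro i _
    simp only [count_up]
    exact Nat.le_mul_of_pos_left _ (Nat.succ_pos n)
  · intro j c
    exact count_up n _ _
  · intro j x y hxy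
    exact bef_up n _ hxy

end Pool.Agent.MWBN.H74
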